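import Pool.Agent.H21.CST.S1

/-! Board `cst`, row CLO: closed sets remain closed. -/

set_option autoImplicit false

namespace Pool.CST

open MvPolynomial Pool.FOS

namespace H36C

theorem bef_add : ∀ (δ : ℕ) (a b c : Fin (δ + 1) → ℕ), Bef δ (a + c) (b + c) ↔ Bef δ a b := by
  intro δ
  induction δ with
  | zero => intro a b c; simp [Bef]
  | succ δ ih =>
    intro a b c
    have := ih (Fin.tail a) (Fin.tail b) (Fin.tail c)
    simp only [Bef, Pi.add_apply, add_lt_add_iff_right, add_left_inj]
    exact or_congr Iff.rfl (and_congr Iff.rfl this)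

theorem bef_trans : ∀ (δ : ℕ) (a b c : Fin (δ + 1) → ℕ), Bef δ a b → Bef δ b c → Bef δ a c := by
  intro δ
  induction δ with
  | zero => intro a b c h1 h2; exact lt_trans h2 h1
  | succ δ ih =>
    intro a b c h1 h2
    rcases h1 with h1 | ⟨h1, h1'⟩
    · rcases h2 with h2 | ⟨h2, h2'⟩
      · exact Or.inl (h1.trans h2)
      · exact Or.inl (h2 ▸ h1)
    · rcases h2 with h2 | ⟨h2, h2'⟩
      · exact Or.inl (h1 ▸ h2)
      · exact Or.inr ⟨h1.trans h2, ih _ _ _ h1' h2'⟩

/-- The unit vector of the last coordinate. -/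
def ex (δ : ℕ) : Fin (δ + 1) → ℕ := Pi.single (Fin.last δ) 1

theorem tail_ex (δ : ℕ) : Fin.tail (ex (δ + 1)) = ex δ := by
  funext i
  simp only [Fin.tail, ex, ← Fin.succ_last, Pi.single_apply, Fin.succ_inj]

theorem bef_ex_zero : ∀ δ : ℕ, Bef δ (ex δ) 0 := by
  intro δ
  induction δ with
  | zero => simp [Bef, ex]
  | succ δ ih =>
    refine Or.inr ⟨?_, ?_⟩
    · simp only [ex, Pi.zero_apply]
      exact Pi.single_eq_of_ne (Fin.last_pos).ne 1
    · rw [tail_ex]
      exact ih

theorem bef_ex_single : ∀ (δ : ℕ) (j : Fin δ), Bef δ (ex δ) (Pi.single j.castSucc 1) := by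
  intro δ
  induction δ with
  | zero => exact fun j => j.elim0
  | succ δ ih =>
    intro j
    have h0 : ex (δ + 1) 0 = 0 := Pi.single_eq_of_ne (Fin.last_pos).ne 1
    refine Fin.cases ?_ (fun j' => ?_) j
    · refine Or.inl ?_
      rw [h0]
      have : (Pi.single (Fin.castSucc (0 : Fin (δ + 1))) 1 : Fin (δ + 2) → ℕ) 0 = 1 :=
        Pi.single_eq_same _ _
      rw [this]
      exact Nat.one_pos
    · refine Or.inr ⟨?_, ?_⟩
      · rw [h0]
        symm
        refine Pi.single_eq_of_ne ?_ 1
        rw [← Fin.succ_castSucc]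
        exact (Fin.succ_ne_zero _).symm
      · rw [tail_ex]
        have : Fin.tail (Pi.single (Fin.castSucc j'.succ) 1 : Fin (δ + 2) → ℕ) =
            Pi.single j'.castSucc 1 := by
          funext i
          simp only [Fin.tail, ← Fin.succ_castSucc, Pi.single_apply, Fin.succ_inj]
        rw [this]
        exact ih j'

/-- A move of a unit preserves membership. `w` is the target (`0` or a unit vector). -/
theorem move (h_dif : DIFStmt) (δ m : ℕ) (Z : Finset (Fin (δ + 1) → ℕ)) (w : Fin (δ + 1) → ℕ)
    (hw : Bef δ (ex δ) w)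
    (hZ : ∀ a ∈ Z, ∀ b : Fin (δ + 1) → ℕ, b + ex δ = a + w → b ∈ Z)
    (u u' : Fin (δ + 1) → ℕ) (hu : u ∈ st δ m Z) (hu' : u' + ex δ = u + w)
    (hux : 1 ≤ u (Fin.last δ)) : u' ∈ st δ m Z := by
  classical
  simp only [st, Finset.mem_filter] at hu ⊢
  refine ⟨hZ u hu.1 u' hu', fun q hq hv => ?_⟩
  have hb : Bef δ u u' := by
    rw [← bef_add δ u u' (ex δ), hu', add_comm u (ex δ), add_comm u w, bef_add]
    exact hw
  obtain ⟨m', rfl⟩ : ∃ m', m = m' + 1 := ⟨m - 1, by omega⟩
  -- the test polynomial
  let v : Fin (δ + 1) → ℂ := fun j => (w j : ℂ) - (ex δ j : ℂ)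
  have hr := h_dif (δ + 1) m' v q hq (Fin.last δ)
  have hev : ∀ a : Fin (δ + 1) → ℕ,
      ev a (X (Fin.last δ) * (q - aeval (fun j => X j + C (v j)) q)) =
        (a (Fin.last δ) : ℂ) * (ev a q - eval (fun j => (a j : ℂ) + v j) q) := by
    intro a
    have : eval (fun i => (a i : ℂ)) (aeval (fun j => X j + C (v j)) q) =
        eval (fun j => (a j : ℂ) + v j) q := by
      rw [← coe_aeval_eq_eval, ← coe_aeval_eq_eval]
      simp only [RingHom.coe_coe]
      rw [← AlgHom.comp_apply, comp_aeval]
      congr 2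
      funext j
      simp
    simp only [ev, map_mul, map_sub, eval_X, this]
  have hsh : ∀ a b : Fin (δ + 1) → ℕ, b + ex δ = a + w →
      eval (fun j => (a j : ℂ) + v j) q = ev b q := by
    intro a b hab
    have : (fun j => (a j : ℂ) + v j) = fun j => (b j : ℂ) := by
      funext j
      have h1 := congrFun hab j
      simp only [Pi.add_apply] at h1
      have h2 : ((b j + ex δ j : ℕ) : ℂ) = ((a j + w j : ℕ) : ℂ) := by rw [h1]
      push_cast at h2
      simp only [v]
      linear_combination -h2
    rw [this]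
    rfl
  have hvan : ∀ a ∈ Z, Bef δ a u →
      ev a (X (Fin.last δ) * (q - aeval (fun j => X j + C (v j)) q)) = 0 := by
    intro a ha hau
    rw [hev]
    rcases Nat.eq_zero_or_pos (a (Fin.last δ)) with h0 | h0
    · rw [h0]
      simp
    · -- a + w
      have hexists : ∃ b : Fin (δ + 1) → ℕ, b + ex δ = a + w := by
        refine ⟨fun j => a j + w j - ex δ j, ?_⟩
        funext j
        simp only [Pi.add_apply]
        refine Nat.sub_add_cancel ?_
        simp only [ex]
        rcases eq_or_ne j (Fin.last δ) with rfl | hj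
        · rw [Pi.single_eq_same]
          omega
        · rw [Pi.single_eq_of_ne hj]
          omega
      obtain ⟨b, hb'⟩ := hexists
      rw [hsh a b hb', hv a ha (bef_trans δ a u u' hau hb), hv b (hZ a ha b hb') ?_]
      · simp
      · rw [← bef_add δ b u' (ex δ), hb', hu', bef_add]
        exact hau
  have h1 := hu.2 _ hr hvan
  rw [hev, hsh u u' hu', hv u hu.1 hb] at h1
  have h2 : (u (Fin.last δ) : ℂ) ≠ 0 := by
    exact_mod_cast (by omega : u (Fin.last δ) ≠ 0)
  have h3 := (mul_eq_zero.1 h1).resolve_left h2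
  linear_combination -h3

theorem clo_of_moves (δ : ℕ) (S : Finset (Fin (δ + 1) → ℕ))
    (h : ∀ w : Fin (δ + 1) → ℕ, (w = 0 ∨ ∃ j : Fin δ, w = Pi.single j.castSucc 1) →
      ∀ u ∈ S, ∀ u' : Fin (δ + 1) → ℕ, u' + ex δ = u + w → 1 ≤ u (Fin.last δ) → u' ∈ S) :
    Clo δ S := by
  intro a ha b hb1 hb2 hb3
  obtain ⟨n, hn⟩ : ∃ n, a (Fin.last δ) = b (Fin.last δ) + n := ⟨_, (Nat.add_sub_cancel' hb2).symm⟩
  induction n generalizing a with
  | zero =>
    have h1 : ∀ j : Fin δ, a j.castSucc = b j.castSucc := by
      by_contra hcon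
      push Not at hcon
      obtain ⟨j, hj⟩ := hcon
      have h2 : a j.castSucc < b j.castSucc := lt_of_le_of_ne (hb1 j) hj
      have h3 : ∑ i, a i < ∑ i, b i := by
        refine Finset.sum_lt_sum (fun i _ => ?_) ⟨j.castSucc, Finset.mem_univ _, h2⟩
        refine Fin.lastCases ?_ (fun i' => hb1 i') i
        omega
      omega
    have : a = b := by
      funext i
      refine Fin.lastCases ?_ (fun i' => h1 i') i
      omega
    exact this ▸ ha
  | succ n ih =>
    have hx : 1 ≤ a (Fin.last δ) := by omega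
    -- the new element
    have key : ∀ w : Fin (δ + 1) → ℕ, (w = 0 ∨ ∃ j : Fin δ, w = Pi.single j.castSucc 1) →
        (∀ j : Fin δ, a j.castSucc + w j.castSucc ≤ b j.castSucc) →
        (∑ i, b i + 1 ≤ ∑ i, a i + ∑ i, w i) → b ∈ S := by
      intro w hw hwb hsum
      have hwl : w (Fin.last δ) = 0 := by
        rcases hw with rfl | ⟨j, rfl⟩
        · rfl
        · exact Pi.single_eq_of_ne (Fin.castSucc_lt_last j).ne' 1
      let a' : Fin (δ + 1) → ℕ := fun j => a j + w j - ex δ j
      have ha' : a' + ex δ = a + w := by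
        funext j
        simp only [Pi.add_apply, a']
        refine Nat.sub_add_cancel ?_
        simp only [ex]
        rcases eq_or_ne j (Fin.last δ) with rfl | hj
        · rw [Pi.single_eq_same]
          omega
        · rw [Pi.single_eq_of_ne hj]
          omega
      have hc : ∀ j : Fin δ, a' j.castSucc = a j.castSucc + w j.castSucc := by
        intro j
        have := congrFun ha' j.castSucc
        simp only [Pi.add_apply, ex, Pi.single_eq_of_ne (Fin.castSucc_lt_last j).ne] at this
        omega
      have hl : a' (Fin.last δ) + 1 = a (Fin.last δ) := by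
        have := congrFun ha' (Fin.last δ)
        simp only [Pi.add_apply, ex, Pi.single_eq_same, hwl] at this
        omega
      have hS : ∑ i, a' i + 1 = ∑ i, a i + ∑ i, w i := by
        have := congrArg (fun f : Fin (δ + 1) → ℕ => ∑ i, f i) ha'
        simp only [Pi.add_apply, Finset.sum_add_distrib] at this
        have h1 : ∑ i, ex δ i = 1 := by
          simp [ex]
        omega
      refine ih a' (h w hw a ha a' ha' hx) (fun j => ?_) (by omega) (by omega) (by omega)
      rw [hc]
      exact hwb j
    by_cases hex : ∃ j : Fin δ, a j.castSucc < b j.castSucc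
    · obtain ⟨j, hj⟩ := hex
      refine key (Pi.single j.castSucc 1) (Or.inr ⟨j, rfl⟩) (fun i => ?_) ?_
      · rcases eq_or_ne i j with rfl | hij
        · rw [Pi.single_eq_same]
          omega
        · rw [Pi.single_eq_of_ne (fun h => hij (Fin.castSucc_injective _ h))]
          have := hb1 i
          omega
      · have : ∑ i, (Pi.single j.castSucc 1 : Fin (δ + 1) → ℕ) i = 1 := by simp
        omega
    · push Not at hex
      refine key 0 (Or.inl rfl) (fun i => ?_) ?_
      · have := hb1 i
        simpa using this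
      · have h1 : ∑ i, b i < ∑ i, a i := by
          refine Finset.sum_lt_sum (fun i _ => ?_) ⟨Fin.last δ, Finset.mem_univ _, by omega⟩
          refine Fin.lastCases ?_ (fun i' => hex i') i
          omega
        simp only [Pi.zero_apply, Finset.sum_const_zero]
        omega

end H36C

open H36C in
theorem t_clo (h_dif : DIFStmt) : CLOStmt := by
  intro δ m Z hZ
  refine clo_of_moves δ _ fun w hw u hu u' hu' hux => ?_
  have hbw : Bef δ (ex δ) w := by
    rcases hw with rfl | ⟨j, rfl⟩
    · exact bef_ex_zero δ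
    · exact bef_ex_single δ j
  refine move h_dif δ m Z w hbw (fun a ha b hb => ?_) u u' hu hu' hux
  have hwl : w (Fin.last δ) = 0 := by
    rcases hw with rfl | ⟨j, rfl⟩
    · rfl
    · exact Pi.single_eq_of_ne (Fin.castSucc_lt_last j).ne' 1
  have hws : ∑ i, w i ≤ 1 := by
    rcases hw with rfl | ⟨j, rfl⟩
    · simp
    · simp
  refine hZ a ha b (fun j => ?_) ?_ ?_
  · have := congrFun hb j.castSucc
    simp only [Pi.add_apply, ex, Pi.single_eq_of_ne (Fin.castSucc_lt_last j).ne] at this
    omega
  · have := congrFun hb (Fin.last δ)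
    simp only [Pi.add_apply, ex, Pi.single_eq_same, hwl] at this
    omega
  · have := congrArg (fun f : Fin (δ + 1) → ℕ => ∑ i, f i) hb
    simp only [Pi.add_apply, Finset.sum_add_distrib] at this
    have h1 : ∑ i, ex δ i = 1 := by simp [ex]
    omega

end Pool.CST
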