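import Pool.Agent.H21.CST.S1

/-! Board `cst`, row DIF: differences lower the degree. -/

set_option autoImplicit false

namespace Pool.CST

open MvPolynomial Pool.FOS

namespace H36D

variable {δ : ℕ}

theorem sh_mono (v : Fin δ → ℂ) : ∀ (n : ℕ) (s : Fin δ →₀ ℕ), s.degree = n →
    (aeval (fun j => X j + C (v j)) (monomial s (1 : ℂ)) : MvPolynomial (Fin δ) ℂ).totalDegree ≤ n ∧
    ∀ i : Fin δ, (X i * (monomial s (1 : ℂ) - aeval (fun j => X j + C (v j)) (monomial s (1 : ℂ))) :
      MvPolynomial (Fin δ) ℂ).totalDegree ≤ n := by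
  intro n
  induction n with
  | zero =>
    intro s hs
    have h0 : s = 0 := (Finsupp.degree_eq_zero_iff s).1 hs
    subst h0
    have h1 : (monomial (0 : Fin δ →₀ ℕ) (1 : ℂ)) = 1 := rfl
    rw [h1, map_one]
    simp
  | succ n ih =>
    intro s hs
    have hne : s ≠ 0 := by
      rintro rfl
      simp at hs
    obtain ⟨j, hj⟩ : ∃ j, s j ≠ 0 := by
      by_contra hcon
      push Not at hcon
      exact hne (Finsupp.ext hcon)
    set s' := s - Finsupp.single j 1 with hs'
    have hss : s = Finsupp.single j 1 + s' := by
      ext i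
      simp only [hs', Finsupp.add_apply, Finsupp.tsub_apply]
      rcases eq_or_ne i j with rfl | h
      · rw [Finsupp.single_eq_same]
        omega
      · rw [Finsupp.single_eq_of_ne h]
        omega
    have hd : s'.degree = n := by
      have : s.degree = 1 + s'.degree := by
        conv_lhs => rw [hss]
        rw [map_add, Finsupp.degree_single]
      omega
    obtain ⟨ih1, ih2⟩ := ih s' hd
    have hmon : (monomial s (1 : ℂ) : MvPolynomial (Fin δ) ℂ) = X j * monomial s' 1 := by
      rw [X, monomial_mul, ← hss, one_mul]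
    set S := (aeval (fun j => X j + C (v j)) (monomial s' (1 : ℂ)) : MvPolynomial (Fin δ) ℂ)
      with hS
    have hsh : (aeval (fun j => X j + C (v j)) (monomial s (1 : ℂ)) : MvPolynomial (Fin δ) ℂ)
        = (X j + C (v j)) * S := by
      rw [hmon, map_mul, aeval_X]
    have hX : (X j : MvPolynomial (Fin δ) ℂ).totalDegree ≤ 1 := (totalDegree_X j).le
    have hXC : (X j + C (v j) : MvPolynomial (Fin δ) ℂ).totalDegree ≤ 1 := by
      refine (totalDegree_add _ _).trans ?_
      rw [totalDegree_C]
      omega
    refine ⟨?_, fun i => ?_⟩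
    · rw [hsh]
      refine (totalDegree_mul _ _).trans ?_
      omega
    · have e : (X i * (monomial s (1 : ℂ) - aeval (fun j => X j + C (v j)) (monomial s (1 : ℂ))) :
          MvPolynomial (Fin δ) ℂ) = X j * (X i * (monomial s' 1 - S)) - C (v j) * (X i * S) := by
        rw [hsh, hmon]
        ring
      rw [e]
      refine (totalDegree_sub _ _).trans (max_le ?_ ?_)
      · refine (totalDegree_mul _ _).trans ?_
        have := ih2 i
        omega
      · refine (totalDegree_mul _ _).trans ?_
        rw [totalDegree_C]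
        have h2 : (X i * S).totalDegree ≤ 1 + n :=
          (totalDegree_mul _ _).trans (add_le_add (totalDegree_X i).le ih1)
        omega

end H36D

theorem t_dif : DIFStmt := by
  intro δ m v q hq i
  have hsum : (X i * (q - aeval (fun j => X j + C (v j)) q) : MvPolynomial (Fin δ) ℂ) =
      ∑ s ∈ q.support, C (coeff s q) * (X i * (monomial s (1 : ℂ) -
        aeval (fun j => X j + C (v j)) (monomial s (1 : ℂ)))) := by
    have hq' : q = ∑ s ∈ q.support, C (coeff s q) * monomial s (1 : ℂ) := by
      conv_lhs => rw [q.as_sum]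
      refine Finset.sum_congr rfl fun s _ => ?_
      rw [C_mul_monomial, mul_one]
    have h1 : (aeval (fun j => X j + C (v j)) q : MvPolynomial (Fin δ) ℂ) =
        ∑ s ∈ q.support, C (coeff s q) * aeval (fun j => X j + C (v j)) (monomial s (1 : ℂ)) := by
      conv_lhs => rw [hq']
      rw [map_sum]
      refine Finset.sum_congr rfl fun s _ => ?_
      rw [map_mul, aeval_C, algebraMap_eq]
    rw [h1]
    have h2 : q - ∑ s ∈ q.support, C (coeff s q) *
          aeval (fun j => X j + C (v j)) (monomial s (1 : ℂ)) =
        ∑ s ∈ q.support, (C (coeff s q) * monomial s (1 : ℂ) - C (coeff s q) *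
          aeval (fun j => X j + C (v j)) (monomial s (1 : ℂ))) := by
      rw [Finset.sum_sub_distrib, ← hq']
    rw [h2, Finset.mul_sum]
    refine Finset.sum_congr rfl fun s _ => ?_
    ring
  rw [hsum]
  refine Nat.lt_succ_of_le (totalDegree_finsetSum_le fun s hs => ?_)
  refine (totalDegree_mul _ _).trans ?_
  rw [totalDegree_C, zero_add]
  have h1 := (H36D.sh_mono v s.degree s rfl).2 i
  have h2 : s.degree ≤ q.totalDegree := by
    have := le_totalDegree hs
    rwa [Finsupp.degree_eq_sum, ← Finsupp.sum_fintype (f := s) (g := fun _ e => e) (fun _ => rfl)]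
  omega

end Pool.CST
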